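import Pool.Agent.N180.MO.Main

/-!
# The multiplicative Orlov conjecture for homological motives of hyperkähler varieties

**Theorem.** Let `X` and `Y` be derived equivalent hyperkähler varieties. Then there are algebraic
cycles `z` on `X × Y` and `z'` on `Y × X` such that `[z'] ∘ [z] = [Δ_X]`, `[z] ∘ [z'] = [Δ_Y]`, and
such that `[z]_* : H(X, ℚ) → H(Y, ℚ)` is an isomorphism of graded rings: the homological motives of
`X` and `Y` are isomorphic as algebra objects (conjecture of Fu and Vial, question Q1).

What is used about `X`, `Y` and the equivalence are the theorems collected in the structures
`Hyperkahler` and `DerivedEquivalence` (`HKData` and `DEData` in `Pool/Agent/N180/MO/Stm.lean`), for a Weil cohomology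
theory `W` with coefficient field `ℚ`, such as the singular cohomology of complex varieties:

* (Looijenga-Lunts, Verbitsky) the Lie algebra generated by the Lefschetz triples acts on `H(X, ℚ)`;
  it is the Lie algebra `so` of the extended Mukai space `V_X = ℚ α ⊕ H^2(X, ℚ) ⊕ ℚ β` with the form
  given by the Beauville-Bogomolov form and `(α, β) = -1`. Here `R x y` denotes the action of `x ∧ y`,
  the element `x ∧ β` acts as the cup product with `x`, and `2 β ∧ α` as `i - dim X` on `H^i`. The
  form is not degenerate on `NS(X)` and some divisor class has non-zero square;
* (Verbitsky) let `HT(X) = ⊕ H^q(X, Λ^p T)` act on `H(X, ℂ)` by contractions, let `ω` span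
  `H^(0,2)(X)`, and let `G` be the image of the complex spin group of `V_X`, which is generated by the
  exponentials of the `R l x` with `l` isotropic and `x` orthogonal to `l`. The Weyl element
  `exp(e) exp(-f) exp(e)` of the triple of the symplectic form `σ` (`e` is the cup product with `σ`,
  and `f` the contraction with the dual bivector) conjugates the cup products to the contractions,
  and moves the line of `β` to that of `ω`;
* (Looijenga-Lunts, Verbitsky) an element of `G` which commutes with the degree operator is in the
  connected subgroup with Lie algebra `ℂ ⊕ so(H^2)` (centralizers of tori are connected), and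
  `so(H^2)` acts by derivations, so the element is up to a scalar an automorphism of the ring;
* (Mukai, Orlov) the Mukai vectors of the kernels give mutually inverse algebraic operators `u`, `v`;
* (Taelman) `u` conjugates the Lie algebras, by a similitude `φ : V_X → V_Y` over `ℚ` (isomorphisms of
  such Lie algebras are given by similitudes), compatible with the Hodge structures: it exchanges
  the algebraic parts `ℚ ⊕ NS ⊕ ℚ` and the lines `H^(0,2)`;
* (Calaque, Rossi, Van den Bergh) `u` conjugates the contractions to contractions.

**Proof.** (1) The operators `R β x` (cup products with divisor classes) and `R (φ β) x`, for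
`x` algebraic, are algebraic, as the latter are conjugates by `u` of such cup products. An explicit
product `p` of at most five exponentials of such operators and of their conjugates moves the isotropic
vector `φ β` to the line of `β`, and `φ α` to the line of `α`. (2) So `s = p u` is algebraic with
algebraic inverse, and commutes with the degree operators: it preserves the degrees. (3) Let `g_X` and
`g_Y` be the elements in the second point above. Then `κ = g_Y⁻¹ u g_X` conjugates the cup products
on `H(X, ℂ)` to cup products on `H(Y, ℂ)`, and `κ s⁻¹ = g_Y⁻¹ (u g_X u⁻¹) p⁻¹` is in `G_Y` and
fixes the line of `β`. After multiplication by the exponential of a cup product with a class in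
`H^2(Y, ℂ)`, it fixes the line of `α` as well, so it is an automorphism up to a scalar by the third
point. Hence `s` conjugates cup products to cup products, and `s / s(1)` is an isomorphism of rings.
-/

open CategoryTheory AlgebraicGeometry

universe u v

namespace Pool.Agent.Results.MP_b12c7d_ag.MultiplicativeOrlov

open Pool.Agent.N180.MOS Pool.Agent.H914 VarClass Obj

theorem result {k : Type u} [Field k] {𝒱 : VarClass k} {ops : CycleOps 𝒱}
    (W : WeilCohomology.{u, v} ops) [Algebra W.K ℂ] (hK : IsRationalField W.K)
    (X Y : 𝒱.Obj) (hX : Hyperkahler W X) (hY : Hyperkahler W Y)
    (D : DerivedEquivalence hX hY) :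
    ∃ (z : (X.prod Y).Cycles) (z' : (Y.prod X).Cycles), IsMotivicRingIso W X Y z z' :=
  main hK D

end Pool.Agent.Results.MP_b12c7d_ag.MultiplicativeOrlov
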